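import Pool.Agent.Run7.h892.RL.GODD

set_option autoImplicit false
set_option linter.unusedSimpArgs false
set_option linter.unusedVariables false
set_option linter.unusedSectionVars false

/-! Piece GTWO: even lattices over the 2-adic integers with the discriminant form of `D₄`. -/

namespace Pool.Agent.Run7.h892.RL

open QuadraticMap Module Pool.Agent.Y813.RL

section two

lemma zmod_two (x : ZMod 2) : x = 0 ∨ x = 1 := by
  revert x; decide

lemma unit_iff (x : ℤ_[2]) : IsUnit x ↔ PadicInt.toZMod x = 1 := by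
  rw [isUnit_iff_toZMod]
  constructor
  · intro h
    exact (zmod_two _).resolve_left h
  · intro h
    rw [h]
    decide

lemma even_iff (x : ℤ_[2]) : (∃ s, x = 2 * s) ↔ PadicInt.toZMod x = 0 := by
  rw [← dvd_iff_toZMod]
  exact Iff.rfl

lemma toZMod_two : PadicInt.toZMod (2 : ℤ_[2]) = 0 := (even_iff 2).1 ⟨1, by ring⟩

lemma not_unit_iff (x : ℤ_[2]) : ¬ IsUnit x ↔ PadicInt.toZMod x = 0 := by
  rw [isUnit_iff_toZMod, not_not]

/-- planes with an even value -/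
lemma planeU (a b c : ℤ_[2]) (hb : IsUnit b) (hac : PadicInt.toZMod (a * c) = 0) :
    Nonempty ((Pl a b c).IsometryEquiv (Pl 0 1 0)) := by
  rw [map_mul, mul_eq_zero] at hac
  have hb1 := (unit_iff b).1 hb
  rcases hac with ha | hc
  · obtain ⟨s, hs, -⟩ := hens c b a hb ((dvd_iff_toZMod _).2 ha)
    obtain ⟨L, hL⟩ := exists_lin2 (-s) 1 (c * s + b) c (by
      rw [unit_iff, map_sub, map_mul, map_mul, map_add, map_mul, hb1, map_one, map_neg]
      generalize PadicInt.toZMod s = s'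
      generalize PadicInt.toZMod c = c'
      revert s' c'; decide)
    refine ⟨⟨L, fun x => ?_⟩⟩
    change Pl 0 1 0 (L x) = _
    rw [hL, Pl_apply, Pl_apply]
    simp only
    linear_combination (-x.1 ^ 2) * hs
  · obtain ⟨s, hs, -⟩ := hens a b c hb ((dvd_iff_toZMod _).2 hc)
    obtain ⟨L, hL⟩ := exists_lin2 1 (-s) a (a * s + b) (by
      rw [unit_iff, map_sub, map_mul, map_mul, map_add, map_mul, hb1, map_one, map_neg]
      generalize PadicInt.toZMod s = s'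
      generalize PadicInt.toZMod a = c'
      revert s' c'; decide)
    refine ⟨⟨L, fun x => ?_⟩⟩
    change Pl 0 1 0 (L x) = _
    rw [hL, Pl_apply, Pl_apply]
    simp only
    linear_combination (-x.2 ^ 2) * hs

/-- odd planes -/
lemma planeV (a b c : ℤ_[2]) (ha : IsUnit a) (hb : IsUnit b) (hc : IsUnit c) :
    ∃ L : (ℤ_[2] × ℤ_[2]) ≃ₗ[ℤ_[2]] (ℤ_[2] × ℤ_[2]), ∀ x,
      (L x).1 ^ 2 + (L x).1 * (L x).2 + (L x).2 ^ 2 =
        a * x.1 ^ 2 + b * x.1 * x.2 + c * x.2 ^ 2 := by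
  have ha1 := (unit_iff a).1 ha
  have hb1 := (unit_iff b).1 hb
  have hc1 := (unit_iff c).1 hc
  obtain ⟨x₀, hx₀, -⟩ := hens a b (c - 1) hb ((dvd_iff_toZMod _).2 (by
    rw [map_sub, hc1, map_one, sub_self]))
  have hb' : IsUnit (2 * a * x₀ + b) := by
    rw [unit_iff, map_add, map_mul, map_mul, toZMod_two, hb1]
    ring
  obtain ⟨v, hv⟩ := hb'
  have hvv : (v : ℤ_[2]) * ((v⁻¹ : ℤ_[2]ˣ) : ℤ_[2]) = 1 := Units.mul_inv v
  have hv1 : PadicInt.toZMod ((v⁻¹ : ℤ_[2]ˣ) : ℤ_[2]) = 1 := (unit_iff _).1 (v⁻¹).isUnit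
  set v' := ((v⁻¹ : ℤ_[2]ˣ) : ℤ_[2]) with hv'
  obtain ⟨h, hh, -⟩ := hens 3 (-3) (1 - a * v' ^ 2) (by
    rw [unit_iff, map_neg, map_ofNat]; decide) ((dvd_iff_toZMod _).2 (by
    rw [map_sub, map_mul, map_pow, ha1, hv1, map_one]; decide))
  have hw : IsUnit (1 - 2 * h) := by
    rw [unit_iff, map_sub, map_mul, toZMod_two, map_one]; ring
  obtain ⟨L, hL⟩ := exists_lin2 (h * v) (1 - h * v * x₀) ((1 - 2 * h) * v)
    (-((1 - 2 * h) * v * x₀)) (by
      have : h * v * (-((1 - 2 * h) * v * x₀)) - (1 - h * v * x₀) * ((1 - 2 * h) * v) =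
        -((1 - 2 * h) * v) := by ring
      rw [this]
      exact (hw.mul v.isUnit).neg)
  refine ⟨L, fun x => ?_⟩
  rw [hL]
  simp only
  have e1 : (v : ℤ_[2]) = 2 * a * x₀ + b := hv
  -- Y = v (x.1 - x₀ x.2)
  have e2 : a * (x.1 - x₀ * x.2) ^ 2 = a * v' ^ 2 * (v * (x.1 - x₀ * x.2)) ^ 2 := by
    linear_combination (-(a * (x.1 - x₀ * x.2) ^ 2 * (v * v' + 1))) * hvv
  have e3 : a * x.1 ^ 2 + b * x.1 * x.2 + c * x.2 ^ 2 =
      x.2 ^ 2 + x.2 * (v * (x.1 - x₀ * x.2)) + a * (x.1 - x₀ * x.2) ^ 2 := by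
    rw [e1]
    linear_combination (-(x.2 ^ 2)) * hx₀ * (-1)
  rw [e3, e2]
  linear_combination (v * (x.1 - x₀ * x.2)) ^ 2 * hh

variable {M M₁ M₂ : Type} [AddCommGroup M] [Module ℤ_[2] M] [AddCommGroup M₁] [Module ℤ_[2] M₁]
  [AddCommGroup M₂] [Module ℤ_[2] M₂]

/-- the radical modulo 2 is anisotropic -/
def OddA (Q : QuadraticForm ℤ_[2] M) : Prop :=
  ∀ x, (∀ y, ∃ r, polar Q x y = 2 * r) → (¬ ∃ z, x = (2 : ℤ_[2]) • z) →
    ∃ u, IsUnit u ∧ Q x = 2 * u

lemma polar_iso {Q : QuadraticForm ℤ_[2] M} {Q₁ : QuadraticForm ℤ_[2] M₁}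
    (e : Q.IsometryEquiv Q₁) (x y : M) : polar Q₁ (e x) (e y) = polar Q x y := by
  rw [polar, polar, ← map_add, e.map_app, e.map_app, e.map_app]

lemma OddA.right {Q : QuadraticForm ℤ_[2] M} {Q₁ : QuadraticForm ℤ_[2] M₁}
    {Q₂ : QuadraticForm ℤ_[2] M₂} (h : OddA Q) (e : (Q₁.prod Q₂).IsometryEquiv Q) :
    OddA Q₂ := by
  intro x hx hx2
  have h1 := h (e (0, x)) (fun y => by
    obtain ⟨w, rfl⟩ := e.toLinearEquiv.surjective y
    obtain ⟨r, hr⟩ := hx w.2
    refine ⟨r, ?_⟩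
    have := polar_iso e (0, x) w
    change polar Q (e (0, x)) (e w) = _
    rw [this, polar_prod]
    simp only [polar_zero_left, zero_add]
    exact hr) (by
    rintro ⟨z, hz⟩
    obtain ⟨w, rfl⟩ := e.toLinearEquiv.surjective z
    apply hx2
    refine ⟨w.2, ?_⟩
    have h3 : e (0, x) = e ((2 : ℤ_[2]) • w) := by
      rw [hz]
      exact (e.toLinearEquiv.map_smul _ _).symm
    have h4 := e.toLinearEquiv.injective h3
    exact congrArg Prod.snd h4)
  obtain ⟨u, hu, hu2⟩ := h1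
  refine ⟨u, hu, ?_⟩
  rw [e.map_app] at hu2
  rw [← hu2]
  change _ = Q₁ 0 + Q₂ x
  rw [QuadraticMap.map_zero, zero_add]

lemma not_two_smul {n : ℕ} (b : Basis (Fin n) ℤ_[2] M) (v : M) (i : Fin n)
    (h : b.repr v i = 1) : ¬ ∃ z, v = (2 : ℤ_[2]) • z := by
  rintro ⟨z, rfl⟩
  rw [map_smul, Finsupp.smul_apply, smul_eq_mul] at h
  have := congrArg (PadicInt.toZMod (p := 2)) h
  rw [map_mul, toZMod_two, zero_mul, map_one] at this
  exact absurd this (by decide)

lemma exists_unit_pair [Module.Free ℤ_[2] M] [Module.Finite ℤ_[2] M]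
    (Q : QuadraticForm ℤ_[2] M) (hQ : OddA Q) (hn : 3 ≤ finrank ℤ_[2] M) :
    ∃ x y, IsUnit (polar Q x y) := by
  classical
  by_contra hcon
  push Not at hcon
  have hev : ∀ x y, ∃ r, polar Q x y = 2 * r := fun x y =>
    (even_iff _).2 ((not_unit_iff _).1 (hcon x y))
  obtain ⟨n, hn'⟩ : ∃ n, finrank ℤ_[2] M = n := ⟨_, rfl⟩
  rw [hn'] at hn
  let b : Basis (Fin n) ℤ_[2] M := Module.finBasisOfFinrankEq ℤ_[2] M hn'
  let i0 : Fin n := ⟨0, by omega⟩
  let i1 : Fin n := ⟨1, by omega⟩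
  let i2 : Fin n := ⟨2, by omega⟩
  have h01 : i0 ≠ i1 := by simp [i0, i1]
  have h02 : i0 ≠ i2 := by simp [i0, i2]
  have h12 : i1 ≠ i2 := by simp [i1, i2]
  obtain ⟨u0, hu0, e0⟩ := hQ (b i0) (hev _) (not_two_smul b _ i0 (by simp))
  obtain ⟨u1, hu1, e1⟩ := hQ (b i1) (hev _) (not_two_smul b _ i1 (by simp))
  obtain ⟨u2, hu2, e2⟩ := hQ (b i2) (hev _) (not_two_smul b _ i2 (by simp))
  obtain ⟨u01, hu01, e01⟩ := hQ (b i0 + b i1) (hev _) (not_two_smul b _ i0 (by
    simp [h01, h02, h12, h01.symm, h02.symm, h12.symm]))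
  obtain ⟨u12, hu12, e12⟩ := hQ (b i1 + b i2) (hev _) (not_two_smul b _ i1 (by
    simp [h01, h02, h12, h01.symm, h02.symm, h12.symm]))
  obtain ⟨u20, hu20, e20⟩ := hQ (b i2 + b i0) (hev _) (not_two_smul b _ i0 (by
    simp [h01, h02, h12, h01.symm, h02.symm, h12.symm]))
  obtain ⟨u, hu, e⟩ := hQ (b i0 + b i1 + b i2) (hev _) (not_two_smul b _ i0 (by
    simp [h01, h02, h12, h01.symm, h02.symm, h12.symm]))
  have h3 := QuadraticMap.map_add_add_add_map Q (b i0) (b i1) (b i2)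
  rw [e, e0, e1, e2, e01, e12, e20] at h3
  have h4 : u + (u0 + u1 + u2) = u01 + u12 + u20 := by
    have h2 : (2 : ℤ_[2]) ≠ 0 := two_ne_zero
    apply mul_left_cancel₀ h2
    linear_combination h3
  have h5 := congrArg (PadicInt.toZMod (p := 2)) h4
  rw [unit_iff] at hu0 hu1 hu2 hu01 hu12 hu20 hu
  simp only [map_add, hu0, hu1, hu2, hu01, hu12, hu20, hu] at h5
  exact absurd h5 (by decide)

lemma finrank_split2 [Module.Free ℤ_[2] M] [Module.Finite ℤ_[2] M] (N : Submodule ℤ_[2] M)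
    (e : ((ℤ_[2] × ℤ_[2]) × N) ≃ₗ[ℤ_[2]] M) :
    finrank ℤ_[2] N + 2 = finrank ℤ_[2] M := by
  rw [← e.finrank_eq, Module.finrank_prod, Module.finrank_prod, Module.finrank_self, add_comm]

lemma unit_disc (a b c : ℤ_[2]) (hb : IsUnit b) : IsUnit (4 * a * c - b ^ 2) := by
  have h4 : (4 : ℤ_[2]) = 2 * 2 := by norm_num
  rw [unit_iff] at hb ⊢
  rw [map_sub, map_mul, map_mul, h4, map_mul, toZMod_two, map_pow, hb]
  simp only [zero_mul]
  decide

lemma contains_U [Module.Free ℤ_[2] M] [Module.Finite ℤ_[2] M]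
    (Q : QuadraticForm ℤ_[2] M) (hQ : OddA Q) (hn : 5 ≤ finrank ℤ_[2] M) :
    ∃ N : Submodule ℤ_[2] M, Nonempty (((Pl (0 : ℤ_[2]) 1 0).prod
      (Q.comp N.subtype)).IsometryEquiv Q) ∧ finrank ℤ_[2] N + 2 = finrank ℤ_[2] M := by
  have aux : ∀ X Y : M, IsUnit (polar Q X Y) → PadicInt.toZMod (Q X * Q Y) = 0 →
      ∃ N : Submodule ℤ_[2] M, Nonempty (((Pl (0 : ℤ_[2]) 1 0).prod
      (Q.comp N.subtype)).IsometryEquiv Q) ∧ finrank ℤ_[2] N + 2 = finrank ℤ_[2] M := by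
    intro X Y h1 h2
    obtain ⟨N, ⟨e⟩⟩ := split2 Q X Y (unit_disc _ _ _ h1)
    obtain ⟨f⟩ := planeU _ _ _ h1 h2
    refine ⟨N, ⟨(QuadraticMap.IsometryEquiv.prod f.symm
      (QuadraticMap.IsometryEquiv.refl _)).trans e⟩, finrank_split2 N e.toLinearEquiv⟩
  obtain ⟨x, y, hxy⟩ := exists_unit_pair Q hQ (by omega)
  by_cases h1 : PadicInt.toZMod (Q x * Q y) = 0
  · exact aux x y hxy h1
  obtain ⟨N, ⟨e⟩⟩ := split2 Q x y (unit_disc _ _ _ hxy)
  have hN := finrank_split2 N e.toLinearEquiv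
  obtain ⟨x', y', hxy'⟩ := exists_unit_pair (Q.comp N.subtype) (hQ.right e) (by omega)
  have hxy2 : IsUnit (polar Q (x' : M) (y' : M)) := hxy'
  by_cases h2 : PadicInt.toZMod (Q (x' : M) * Q (y' : M)) = 0
  · exact aux x' y' hxy2 h2
  -- all four values are odd
  have o1 : PadicInt.toZMod (Q (e ((1, 0), 0))) = 1 := by
    rw [e.map_app]
    change PadicInt.toZMod (Pl (Q x) (polar Q x y) (Q y) (1, 0) + Q.comp N.subtype 0) = 1
    rw [Pl_apply, QuadraticMap.map_zero]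
    simp only
    rw [map_mul] at h1
    have h3 : PadicInt.toZMod (Q x) = 1 := (zmod_two _).resolve_left (left_ne_zero_of_mul h1)
    have : Q x * 1 ^ 2 + polar Q x y * 1 * 0 + Q y * 0 ^ 2 + 0 = Q x := by ring
    rw [this, h3]
  have hx'1 : PadicInt.toZMod (Q (x' : M)) = 1 := by
    rw [map_mul] at h2
    exact (zmod_two _).resolve_left (left_ne_zero_of_mul h2)
  apply aux (e ((1, 0), x')) (e ((0, 1), 0))
  · rw [polar_iso, polar_prod, polar_Pl]
    simp only [polar_zero_right, mul_zero, mul_one, zero_add, add_zero, zero_mul]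
    exact hxy
  · rw [map_mul]
    have : PadicInt.toZMod (Q (e ((1, 0), x'))) = 0 := by
      rw [e.map_app]
      change PadicInt.toZMod (Pl (Q x) (polar Q x y) (Q y) (1, 0) + Q (x' : M)) = 0
      rw [e.map_app] at o1
      change PadicInt.toZMod (Pl (Q x) (polar Q x y) (Q y) (1, 0) + Q.comp N.subtype 0) = 1 at o1
      rw [QuadraticMap.map_zero, add_zero] at o1
      rw [map_add, o1, hx'1]
      decide
    rw [this, zero_mul]

lemma base_two [Module.Free ℤ_[2] M] [Module.Finite ℤ_[2] M]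
    (Q : QuadraticForm ℤ_[2] M) (hQ : OddA Q) (hn : finrank ℤ_[2] M = 4) (hd : DiscIs Q 4) :
    Nonempty (Q.IsometryEquiv ((Pl (1 : ℤ_[2]) 1 1).prod (Pl (2 : ℤ_[2]) 2 2))) := by
  classical
  obtain ⟨x, y, hxy⟩ := exists_unit_pair Q hQ (by omega)
  obtain ⟨N, ⟨e⟩⟩ := split2 Q x y (unit_disc _ _ _ hxy)
  have hN := finrank_split2 N e.toLinearEquiv
  have hQN := hQ.right e
  by_cases hcase : ∃ x' y' : N, IsUnit (polar (Q.comp N.subtype) x' y')
  · exfalso
    obtain ⟨x', y', hxy'⟩ := hcase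
    obtain ⟨N', ⟨e'⟩⟩ := split2 (Q.comp N.subtype) x' y' (unit_disc _ _ _ hxy')
    have hN' := finrank_split2 N' e'.toLinearEquiv
    have d1 := (disc_Pl (Q.comp N.subtype x') (polar (Q.comp N.subtype) x' y')
      (Q.comp N.subtype y')).prod (disc_zero ((Q.comp N.subtype).comp N'.subtype) (by omega))
    have d2 := ((disc_Pl (Q x) (polar Q x y) (Q y)).prod (d1.congr e')).congr e
    obtain ⟨u, hu⟩ := d2.unique hd
    have h4 : (4 : ℤ_[2]) = 2 * 2 := by norm_num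
    have h5 := congrArg (PadicInt.toZMod (p := 2)) hu
    rw [map_mul, (unit_iff _).1 (unit_disc _ _ _ hxy), mul_one,
      (unit_iff _).1 (unit_disc _ _ _ hxy'), map_mul, h4, map_mul, toZMod_two, zero_mul,
      zero_mul] at h5
    exact absurd h5 (by decide)
  push Not at hcase
  have hev : ∀ x y : N, ∃ r, polar (Q.comp N.subtype) x y = 2 * r := fun x y =>
    (even_iff _).2 ((not_unit_iff _).1 (hcase x y))
  let b : Basis (Fin 2) ℤ_[2] N := Module.finBasisOfFinrankEq ℤ_[2] N (by omega)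
  obtain ⟨u0, hu0, e0⟩ := hQN (b 0) (hev _) (not_two_smul b _ 0 (by simp))
  obtain ⟨u1, hu1, e1⟩ := hQN (b 1) (hev _) (not_two_smul b _ 1 (by simp))
  obtain ⟨u01, hu01, e01⟩ := hQN (b 0 + b 1) (hev _) (not_two_smul b _ 0 (by simp))
  set β := u01 - u0 - u1 with hβ
  have hpol : polar (Q.comp N.subtype) (b 0) (b 1) = 2 * β := by
    rw [polar, e0, e1, e01, hβ]; ring
  have hβu : IsUnit β := by
    rw [unit_iff] at hu0 hu1 hu01 ⊢
    rw [hβ, map_sub, map_sub, hu0, hu1, hu01]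
    decide
  obtain ⟨L, hL⟩ := planeV u0 β u1 hu0 hβu hu1
  let g : (ℤ_[2] × ℤ_[2]) ≃ₗ[ℤ_[2]] N :=
    (LinearEquiv.finTwoArrow ℤ_[2] ℤ_[2]).symm.trans b.equivFun.symm
  have hg : ∀ x, g x = x.1 • b 0 + x.2 • b 1 := by
    intro x
    change b.equivFun.symm _ = _
    rw [Basis.equivFun_symm_apply, Fin.sum_univ_two]
    rfl
  have hQg : ∀ x, Q.comp N.subtype (g x) = 2 * (u0 * x.1 ^ 2 + β * x.1 * x.2 + u1 * x.2 ^ 2) := by
    intro x
    rw [hg, QuadraticMap.map_add (Q.comp N.subtype), QuadraticMap.map_smul,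
      QuadraticMap.map_smul, polar_smul_left,
      polar_smul_right, hpol, e0, e1]
    simp only [smul_eq_mul]
    ring
  have e2 : (Pl (2 : ℤ_[2]) 2 2).IsometryEquiv (Q.comp N.subtype) :=
    ⟨L.symm.trans g, fun x => by
      obtain ⟨w, rfl⟩ := L.surjective x
      change Q.comp N.subtype (g (L.symm (L w))) = _
      rw [LinearEquiv.symm_apply_apply, hQg, ← hL, Pl_apply]
      ring⟩
  by_cases h1 : PadicInt.toZMod (Q x * Q y) = 0
  · exfalso
    obtain ⟨f⟩ := planeU _ _ _ hxy h1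
    have d1 := (((disc_Pl (0 : ℤ_[2]) 1 0).congr f.symm).prod
      ((disc_Pl (2 : ℤ_[2]) 2 2).congr e2)).congr e
    obtain ⟨u, hu⟩ := d1.unique hd
    have h5 : (u : ℤ_[2]) ^ 2 = -3 := by
      have h4 : (4 : ℤ_[2]) ≠ 0 := by norm_num
      apply mul_left_cancel₀ h4
      rw [← hu]; ring
    have h6 := congrArg (PadicInt.toZModPow (p := 2) 3) h5
    rw [map_pow, map_neg, map_ofNat] at h6
    generalize PadicInt.toZModPow (p := 2) 3 (u : ℤ_[2]) = w at h6
    revert w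
    decide
  · rw [map_mul] at h1
    have h3 : IsUnit (Q x) :=
      (unit_iff _).2 ((zmod_two _).resolve_left (left_ne_zero_of_mul h1))
    have h4 : IsUnit (Q y) :=
      (unit_iff _).2 ((zmod_two _).resolve_left (right_ne_zero_of_mul h1))
    obtain ⟨L', hL'⟩ := planeV _ _ _ h3 hxy h4
    have f : (Pl (Q x) (polar Q x y) (Q y)).IsometryEquiv (Pl (1 : ℤ_[2]) 1 1) :=
      ⟨L', fun w => by
        change Pl (1 : ℤ_[2]) 1 1 (L' w) = _
        rw [Pl_apply, Pl_apply, ← hL']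
        ring⟩
    exact ⟨e.symm.trans (QuadraticMap.IsometryEquiv.prod f e2.symm)⟩

theorem main_two (j : ℕ) : ∀ (M M' : Type) [AddCommGroup M] [Module ℤ_[2] M]
    [AddCommGroup M'] [Module ℤ_[2] M'] [Module.Free ℤ_[2] M] [Module.Finite ℤ_[2] M]
    [Module.Free ℤ_[2] M'] [Module.Finite ℤ_[2] M'] (Q : QuadraticForm ℤ_[2] M)
    (Q' : QuadraticForm ℤ_[2] M'), OddA Q → OddA Q' → DiscIs Q (4 * (-1) ^ j) →
    DiscIs Q' (4 * (-1) ^ j) → finrank ℤ_[2] M = 2 * j + 4 → finrank ℤ_[2] M' = 2 * j + 4 →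
    Nonempty (Q.IsometryEquiv Q') := by
  induction j with
  | zero =>
    intro M M' _ _ _ _ _ _ _ _ Q Q' hQ hQ' hd hd' hn hn'
    rw [pow_zero, mul_one] at hd hd'
    obtain ⟨e⟩ := base_two Q hQ (by omega) hd
    obtain ⟨e'⟩ := base_two Q' hQ' (by omega) hd'
    exact ⟨e.trans e'.symm⟩
  | succ j ih =>
    intro M M' _ _ _ _ _ _ _ _ Q Q' hQ hQ' hd hd' hn hn'
    obtain ⟨N, ⟨e⟩, hN⟩ := contains_U Q hQ (by omega)
    obtain ⟨N', ⟨e'⟩, hN'⟩ := contains_U Q' hQ' (by omega)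
    have hL : DiscIs (Pl (0 : ℤ_[2]) 1 0) ((-1 : ℤ_[2]ˣ) : ℤ_[2]) := by
      have := disc_Pl (0 : ℤ_[2]) 1 0
      have h1 : (4 * 0 * 0 - 1 ^ 2 : ℤ_[2]) = ((-1 : ℤ_[2]ˣ) : ℤ_[2]) := by
        rw [Units.val_neg, Units.val_one]; ring
      rwa [h1] at this
    have h8 := hd.congr e.symm
    have h8' := hd'.congr e'.symm
    have hdN := h8.cancel hL
    have hdN' := h8'.cancel hL
    have h9 : (4 * (-1) ^ (j + 1) * ((-1 : ℤ_[2]ˣ) : ℤ_[2]) : ℤ_[2]) = 4 * (-1) ^ j := by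
      rw [Units.val_neg, Units.val_one, pow_succ]; ring
    rw [h9] at hdN hdN'
    obtain ⟨f⟩ := ih N N' _ _ (hQ.right e) (hQ'.right e') hdN hdN' (by omega) (by omega)
    exact ⟨(e.symm.trans (QuadraticMap.IsometryEquiv.prod
      (QuadraticMap.IsometryEquiv.refl (Pl (0 : ℤ_[2]) 1 0)) f)).trans e'⟩

end two

section final

variable {ι : Type} [Fintype ι] [DecidableEq ι]

/-- an integral matrix `H` with `H + Hᵀ = B` -/
lemma exists_half (B : Matrix ι ι ℤ) (hB : B.IsSymm) (hev : ∀ i, Even (B i i)) :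
    ∃ H : Matrix ι ι ℤ, H + H.transpose = B := by
  classical
  obtain ⟨n, ⟨e⟩⟩ : ∃ n, Nonempty (ι ≃ Fin n) := ⟨_, ⟨Fintype.equivFin ι⟩⟩
  refine ⟨Matrix.of fun i j => if e i < e j then B i j else if i = j then B i i / 2 else 0, ?_⟩
  ext i j
  rw [Matrix.add_apply, Matrix.transpose_apply, Matrix.of_apply, Matrix.of_apply]
  by_cases hij : i = j
  · subst hij
    obtain ⟨k, hk⟩ := hev i
    rw [if_neg (lt_irrefl _), if_pos rfl, hk]
    omega
  · rcases lt_or_gt_of_ne (fun h => hij (e.injective h) : e i ≠ e j) with h | h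
    · rw [if_pos h, if_neg h.not_gt, if_neg (fun h' => hij h'.symm), add_zero]
    · rw [if_neg h.not_gt, if_neg hij, if_pos h, zero_add, hB.apply]

lemma bf_half (R : Type) [CommRing R] (B H : Matrix ι ι ℤ) (h : H + H.transpose = B)
    (x y : ι → R) : bf B x y = bf H x y + bf H y x := by
  have h2 : bf H y x = ∑ i, ∑ j, x i * (H j i : R) * y j := by
    unfold bf
    rw [Finset.sum_comm]
    refine Finset.sum_congr rfl fun i _ => Finset.sum_congr rfl fun j _ => ?_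
    ring
  rw [h2, ← h]
  unfold bf
  rw [← Finset.sum_add_distrib]
  refine Finset.sum_congr rfl fun i _ => ?_
  rw [← Finset.sum_add_distrib]
  refine Finset.sum_congr rfl fun j _ => ?_
  rw [Matrix.add_apply, Matrix.transpose_apply, Int.cast_add]
  ring

lemma polar_half (R : Type) [CommRing R] (B H : Matrix ι ι ℤ) (h : H + H.transpose = B)
    (x y : ι → R) : polar (Qf R H) x y = bf B x y := by
  rw [polar, Qf_apply, Qf_apply, Qf_apply, bf_add_left, bf_add_right, bf_add_right,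
    bf_half R B H h]
  ring

lemma bf_mulVec (B : Matrix ι ι ℤ) (x y : ι → ℤ) : bf B x y = ∑ i, x i * (B.mulVec y) i := by
  unfold bf
  refine Finset.sum_congr rfl fun i _ => ?_
  rw [Matrix.mulVec, dotProduct, Finset.mul_sum]
  refine Finset.sum_congr rfl fun j _ => ?_
  simp only [Int.cast_id]
  ring

lemma oddA_half (B H : Matrix ι ι ℤ) (hB : B.IsSymm) (h : H + H.transpose = B)
    (hdet : B.det = 4) (hodd : Pool.Agent.Run7.h352.RL.OddDisc B) : OddA (Qf ℤ_[2] H) := by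
  classical
  intro x hx hx2
  -- approximation
  have happ : ∀ i, ∃ w, x i = ((x i).appr 3 : ℤ_[2]) + 8 * w := by
    intro i
    have := PadicInt.appr_spec 3 (x i)
    rw [Ideal.mem_span_singleton] at this
    obtain ⟨w, hw⟩ := this
    refine ⟨w, ?_⟩
    have h8 : (8 : ℤ_[2]) = ((2 : ℕ) : ℤ_[2]) ^ 3 := by norm_num
    rw [h8, ← hw]; ring
  choose w hw using happ
  let z : ι → ℤ := fun i => ((x i).appr 3 : ℤ)
  have hxz : x = (fun i => (z i : ℤ_[2])) + (8 : ℤ_[2]) • w := by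
    ext i
    rw [Pi.add_apply, Pi.smul_apply, smul_eq_mul]
    simp only [z, Int.cast_natCast]
    exact hw i
  -- B z is even
  have hBz : ∀ i, ∃ m : ℤ, (B.mulVec z) i = 2 * m := by
    intro i
    obtain ⟨r, hr⟩ := hx (Pi.single i 1)
    rw [polar_half ℤ_[2] B H h, bf_comm hB] at hr
    have h1 : bf B (Pi.single i (1 : ℤ_[2])) x =
        (((B.mulVec z) i : ℤ) : ℤ_[2]) + 8 * bf B (Pi.single i (1 : ℤ_[2])) w := by
      rw [hxz, bf_add_right, bf_smul_right]
      congr 1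
      have h2 : (Pi.single i (1 : ℤ_[2]) : ι → ℤ_[2]) =
          fun j => (((Pi.single i (1 : ℤ) : ι → ℤ) j : ℤ) : ℤ_[2]) := by
        ext j
        by_cases hj : j = i
        · subst hj; simp
        · simp [Pi.single_apply, hj]
      rw [h2, bf_intCast, bf_mulVec]
      congr 1
      rw [Finset.sum_eq_single i]
      · simp
      · intro k _ hk; simp [Pi.single_apply, hk]
      · intro h; exact absurd (Finset.mem_univ _) h
    have h3 : PadicInt.toZMod ((((B.mulVec z) i : ℤ) : ℤ_[2])) = 0 := by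
      rw [← even_iff]
      refine ⟨r - 4 * bf B (Pi.single i (1 : ℤ_[2])) w, ?_⟩
      rw [h1] at hr
      linear_combination hr
    rw [map_intCast, ZMod.intCast_zmod_eq_zero_iff_dvd] at h3
    obtain ⟨m, hm⟩ := h3
    exact ⟨m, by rw [hm]; rfl⟩
  choose μ hμ using hBz
  have hμ' : B.mulVec z = (2 : ℤ) • μ := by
    ext i
    rw [hμ, Pi.smul_apply, smul_eq_mul]
  have hadj : ∀ v : ι → ℤ, B.adjugate.mulVec (B.mulVec v) = (4 : ℤ) • v := by
    intro v
    rw [Matrix.mulVec_mulVec, Matrix.adjugate_mul, hdet, Matrix.smul_mulVec, Matrix.one_mulVec]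
  rcases hodd μ with ⟨v, hv⟩ | ⟨k, hk⟩
  · exfalso
    have h1 : z = (2 : ℤ) • v := by
      have h2 : (4 : ℤ) • z = (4 : ℤ) • ((2 : ℤ) • v) := by
        rw [← hadj, ← hadj, hμ', Matrix.mulVec_smul B, ← hv]
      ext i
      have h3 := congrFun h2 i
      simp only [Pi.smul_apply, smul_eq_mul] at h3 ⊢
      omega
    apply hx2
    refine ⟨fun i => (v i : ℤ_[2]) + 4 * w i, ?_⟩
    rw [hxz, h1]
    ext i
    simp only [Pi.add_apply, Pi.smul_apply, smul_eq_mul, Int.cast_mul, Int.cast_ofNat]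
    ring
  · have h1 : bf B z z = 8 * k + 4 := by
      have h2 : 4 * bf B z z = 4 * (8 * k + 4) := by
        rw [← hk, bf_comm hB, bf_mulVec, Finset.mul_sum, Finset.mul_sum]
        refine Finset.sum_congr rfl fun i _ => ?_
        have h3 : (2 : ℤ) * (B.adjugate.mulVec μ) i = 4 * z i := by
          have h4 := hadj z
          rw [hμ', Matrix.mulVec_smul] at h4
          exact congrFun h4 i
        rw [hμ]
        linear_combination (-(2 * μ i)) * h3
      omega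
    have h2 : bf H z z = 4 * k + 2 := by
      have := bf_half ℤ B H h z z
      omega
    refine ⟨2 * (k : ℤ_[2]) + 1 + 32 * Qf ℤ_[2] H w +
      4 * polar (Qf ℤ_[2] H) (fun i => (z i : ℤ_[2])) w, ?_, ?_⟩
    · rw [unit_iff]
      have h32 : (32 : ℤ_[2]) = 2 * 16 := by norm_num
      have h4 : (4 : ℤ_[2]) = 2 * 2 := by norm_num
      rw [h32, h4]
      simp only [map_add, map_mul, toZMod_two, zero_mul, map_one, add_zero, zero_add]
    · rw [hxz, QuadraticMap.map_add (Qf ℤ_[2] H), QuadraticMap.map_smul, polar_smul_right,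
        Qf_apply,
        bf_intCast, h2]
      simp only [smul_eq_mul]
      push_cast
      ring

end final

theorem gTwo : Pool.Agent.Run7.h352.RL.JobGTwo := by
  classical
  intro ι κ _ _ _ _ hι hκ B C hB hC hBe hCe hdB hdC hoB hoC
  obtain ⟨H, hH⟩ := exists_half B hB hBe
  obtain ⟨K, hK⟩ := exists_half C hC hCe
  have hdisc : ∀ (ι : Type) [Fintype ι] [DecidableEq ι] (B H : Matrix ι ι ℤ),
      H + H.transpose = B → B.det = 4 → DiscIs (Qf ℤ_[2] H) (4 * (-1) ^ 8) := by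
    intro ι _ _ B H hH hdB
    refine ⟨ι, inferInstance, inferInstance, Pi.basisFun _ ι, 1, ?_⟩
    have h4 : LinearMap.BilinForm.toMatrix (Pi.basisFun ℤ_[2] ι) (polarBilin (Qf ℤ_[2] H)) =
        (Int.castRingHom ℤ_[2]).mapMatrix B := by
      ext i j
      rw [LinearMap.BilinForm.toMatrix_apply, polarBilin_apply_apply, polar_half ℤ_[2] B H hH,
        Pi.basisFun_apply, Pi.basisFun_apply, bf_single]
      rfl
    rw [h4, ← RingHom.map_det, hdB]
    have h5 : ((-1 : ℤ_[2])) ^ 8 = 1 := by norm_num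
    rw [h5]
    simp
  obtain ⟨e⟩ := main_two 8 (ι → ℤ_[2]) (κ → ℤ_[2]) (Qf ℤ_[2] H) (Qf ℤ_[2] K)
    (oddA_half B H hB hH hdB hoB) (oddA_half C K hC hK hdC hoC)
    (hdisc ι B H hH hdB) (hdisc κ C K hK hdC)
    (by rw [Module.finrank_fintype_fun_eq_card, hι]) (by
      rw [Module.finrank_fintype_fun_eq_card, hκ])
  refine ⟨e.toLinearEquiv, fun x y => ?_⟩
  rw [← polar_half ℤ_[2] C K hK, ← polar_half ℤ_[2] B H hH]
  exact polar_iso e x y

end Pool.Agent.Run7.h892.RL
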