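import Pool.Agent.Run7.h892.RL.Zp

set_option autoImplicit false
set_option linter.unusedSimpArgs false
set_option linter.unusedVariables false
set_option linter.unusedSectionVars false

/-! Piece GODD: unimodular forms over the p-adic integers, p odd. -/

namespace Pool.Agent.Run7.h892.RL

open QuadraticMap Module Pool.Agent.Y813.RL

section padic

variable {p : ℕ} [hp : Fact p.Prime]

lemma isUnit_iff_toZMod (x : ℤ_[p]) : IsUnit x ↔ PadicInt.toZMod x ≠ 0 := by
  rw [← not_iff_not, not_not, ← RingHom.mem_ker, PadicInt.ker_toZMod,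
    IsLocalRing.mem_maximalIdeal, mem_nonunits_iff]

lemma dvd_iff_toZMod (x : ℤ_[p]) : (p : ℤ_[p]) ∣ x ↔ PadicInt.toZMod x = 0 := by
  rw [← RingHom.mem_ker, PadicInt.ker_toZMod, PadicInt.maximalIdeal_eq_span_p,
    Ideal.mem_span_singleton]

lemma hens (a b c : ℤ_[p]) (hb : IsUnit b) (hc : (p : ℤ_[p]) ∣ c) :
    ∃ s, a * s ^ 2 + b * s + c = 0 ∧ (p : ℤ_[p]) ∣ s := by
  let F : Polynomial ℤ_[p] := Polynomial.C a * Polynomial.X ^ 2 + Polynomial.C b * Polynomial.X +
    Polynomial.C c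
  have h1 : F.aeval (0 : ℤ_[p]) = c := by simp [F]
  have h2 : F.derivative.aeval (0 : ℤ_[p]) = b := by simp [F]
  obtain ⟨z, hz, hz2, -⟩ := hensels_lemma (F := F) (a := (0 : ℤ_[p])) (by
    rw [h1, h2, PadicInt.isUnit_iff.1 hb, one_pow]
    exact PadicInt.norm_lt_one_iff_dvd c |>.2 hc)
  rw [h2, sub_zero, PadicInt.isUnit_iff.1 hb] at hz2
  refine ⟨z, ?_, (PadicInt.norm_lt_one_iff_dvd z).1 hz2⟩
  rw [← hz]
  simp [F]

lemma exists_rep_one (hp2 : p ≠ 2) (a b : ℤ_[p]) (ha : IsUnit a) (hb : IsUnit b) :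
    ∃ x y, a * x ^ 2 + b * y ^ 2 = 1 := by
  have h2 : IsUnit (2 : ℤ_[p]) := by
    rw [isUnit_iff_toZMod, map_ofNat]
    intro h0
    have h3 : ((2 : ℕ) : ZMod p) = 0 := by exact_mod_cast h0
    rw [ZMod.natCast_eq_zero_iff] at h3
    exact hp2 ((Nat.prime_dvd_prime_iff_eq hp.out Nat.prime_two).1 h3)
  -- the key step
  have key : ∀ (a b x₁ y₁ : ℤ_[p]), IsUnit a → IsUnit x₁ →
      PadicInt.toZMod (a * x₁ ^ 2 + b * y₁ ^ 2 - 1) = 0 →
      ∃ x y, a * x ^ 2 + b * y ^ 2 = 1 := by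
    intro a b x₁ y₁ ha hx h0
    obtain ⟨s, hs, -⟩ := hens a (2 * a * x₁) (a * x₁ ^ 2 + b * y₁ ^ 2 - 1)
      ((h2.mul ha).mul hx) ((dvd_iff_toZMod _).2 h0)
    exact ⟨x₁ + s, y₁, by linear_combination hs⟩
  have ha' := (isUnit_iff_toZMod a).1 ha
  have hb' := (isUnit_iff_toZMod b).1 hb
  obtain ⟨x₀, y₀, h0⟩ := FiniteField.exists_root_sum_quadratic
    (R := ZMod p) (f := Polynomial.C (PadicInt.toZMod a) * Polynomial.X ^ 2)
    (g := Polynomial.C (PadicInt.toZMod b) * Polynomial.X ^ 2 + Polynomial.C 0 * Polynomial.X +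
      Polynomial.C (-1))
    (Polynomial.degree_C_mul_X_pow 2 ha') (Polynomial.degree_quadratic hb') (by
      rw [ZMod.card]
      exact hp.out.eq_two_or_odd.resolve_left hp2)
  obtain ⟨x₁, rfl⟩ := ZMod.ringHom_surjective (PadicInt.toZMod (p := p)) x₀
  obtain ⟨y₁, rfl⟩ := ZMod.ringHom_surjective (PadicInt.toZMod (p := p)) y₀
  have h1 : PadicInt.toZMod (a * x₁ ^ 2 + b * y₁ ^ 2 - 1) = 0 := by
    rw [← h0]
    simp
    ring
  by_cases hx : IsUnit x₁
  · exact key a b x₁ y₁ ha hx h1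
  · have hy : IsUnit y₁ := by
      rw [isUnit_iff_toZMod, not_not] at hx
      rw [isUnit_iff_toZMod]
      intro hy
      rw [map_sub, map_add, map_mul, map_mul, map_pow, map_pow, hx, hy, map_one] at h1
      simp at h1
    obtain ⟨x, y, hxy⟩ := key b a y₁ x₁ hb hy (by rw [add_comm (b * y₁ ^ 2)]; exact h1)
    exact ⟨y, x, by rw [← hxy]; ring⟩

end padic

section gen

variable {R : Type} [CommRing R] [IsLocalRing R] {M M' : Type} [AddCommGroup M] [Module R M]
  [AddCommGroup M'] [Module R M']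

lemma exists_unit_val [Module.Free R M] [Module.Finite R M] (Q : QuadraticForm R M) (d : Rˣ)
    (h : DiscIs Q (d : R)) (hn : 0 < finrank R M) : ∃ x, IsUnit (Q x) := by
  classical
  by_contra hcon
  push Not at hcon
  obtain ⟨ι, _, _, b, u, hu⟩ := h
  have hne : Nonempty ι := by
    rw [← Fintype.card_pos_iff, ← finrank_eq_card_basis b]
    exact hn
  have h1 : IsUnit (LinearMap.BilinForm.toMatrix b (polarBilin Q)).det := by
    rw [hu]; exact d.isUnit.mul (u.isUnit.pow 2)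
  have h2 : (LinearMap.BilinForm.toMatrix b (polarBilin Q)).map (IsLocalRing.residue R) = 0 := by
    ext i j
    rw [Matrix.map_apply, LinearMap.BilinForm.toMatrix_apply, Matrix.zero_apply,
      IsLocalRing.residue_eq_zero_iff]
    change Q (b i + b j) - Q (b i) - Q (b j) ∈ _
    exact Ideal.sub_mem _ (Ideal.sub_mem _ (hcon _) (hcon _)) (hcon _)
  have h3 := RingHom.map_det (IsLocalRing.residue R)
    (LinearMap.BilinForm.toMatrix b (polarBilin Q))
  rw [RingHom.mapMatrix_apply, h2, Matrix.det_zero, IsLocalRing.residue_eq_zero_iff] at h3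
  exact h3 h1

lemma disc_zero [Module.Free R M] [Module.Finite R M] (Q : QuadraticForm R M)
    (hn : finrank R M = 0) : DiscIs Q 1 := by
  classical
  have : Subsingleton M := by
    have := Module.finBasis R M
    rw [hn] at this
    exact this.repr.toEquiv.subsingleton
  exact ⟨Fin 0, inferInstance, inferInstance, Basis.empty M, 1, by simp⟩

lemma equiv_zero [Module.Free R M] [Module.Finite R M] [Module.Free R M'] [Module.Finite R M']
    (Q : QuadraticForm R M) (Q' : QuadraticForm R M')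
    (hn : finrank R M = 0) (hn' : finrank R M' = 0) : Nonempty (Q.IsometryEquiv Q') := by
  have h1 : Subsingleton M := by
    have := Module.finBasis R M
    rw [hn] at this
    exact this.repr.toEquiv.subsingleton
  have h2 : Subsingleton M' := by
    have := Module.finBasis R M'
    rw [hn'] at this
    exact this.repr.toEquiv.subsingleton
  let e0 : M ≃ₗ[R] M' := default
  refine ⟨⟨e0, fun m => ?_⟩⟩
  change Q' (e0 m) = Q m
  rw [Subsingleton.elim (e0 m) 0, Subsingleton.elim m 0, QuadraticMap.map_zero,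
    QuadraticMap.map_zero]

end gen

section odd

variable {p : ℕ} [hp : Fact p.Prime]

lemma finrank_split1 {M : Type} [AddCommGroup M] [Module ℤ_[p] M] [Module.Free ℤ_[p] M]
    [Module.Finite ℤ_[p] M] (N : Submodule ℤ_[p] M) (e : (ℤ_[p] × N) ≃ₗ[ℤ_[p]] M) :
    finrank ℤ_[p] N + 1 = finrank ℤ_[p] M := by
  rw [← e.finrank_eq, Module.finrank_prod, Module.finrank_self, add_comm]

lemma contains_one (hp2 : p ≠ 2) {M : Type} [AddCommGroup M] [Module ℤ_[p] M]
    [Module.Free ℤ_[p] M] [Module.Finite ℤ_[p] M] (Q : QuadraticForm ℤ_[p] M) (d : ℤ_[p]ˣ)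
    (h : DiscIs Q (d : ℤ_[p])) (hn : 2 ≤ finrank ℤ_[p] M) (h2 : IsUnit (2 : ℤ_[p])) :
    ∃ N : Submodule ℤ_[p] M, Nonempty (((Li (1 : ℤ_[p])).prod (Q.comp N.subtype)).IsometryEquiv Q)
      ∧ finrank ℤ_[p] N + 1 = finrank ℤ_[p] M := by
  obtain ⟨x, hx⟩ := exists_unit_val Q d h (by omega)
  obtain ⟨N, ⟨e⟩⟩ := split1 Q x (h2.mul hx)
  have hN := finrank_split1 N e.toLinearEquiv
  obtain ⟨u2, hu2⟩ := h2.mul hx
  have hdN : DiscIs (Q.comp N.subtype) (d * u2 : ℤ_[p]) := by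
    apply DiscIs.cancel (Q₁ := Li (Q x)) (d₁ := u2) (h.congr e.symm)
    rw [hu2]
    exact disc_Li _
  rw [← Units.val_mul] at hdN
  obtain ⟨y, hy⟩ := exists_unit_val _ _ hdN (by omega)
  obtain ⟨s, t, hst⟩ := exists_rep_one hp2 (Q x) (Q.comp N.subtype y) hx hy
  have hz : Q (e (s, t • y)) = 1 := by
    rw [e.map_app]
    change Li (Q x) s + Q.comp N.subtype (t • y) = 1
    rw [QuadraticMap.map_smul, Li_apply, ← hst, smul_eq_mul]
    ring
  obtain ⟨N', ⟨e'⟩⟩ := split1 Q (e (s, t • y)) (by rw [hz, mul_one]; exact h2)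
  rw [hz] at e'
  exact ⟨N', ⟨e'⟩, finrank_split1 N' e'.toLinearEquiv⟩

theorem main_odd (hp2 : p ≠ 2) (n : ℕ) : ∀ (M M' : Type) [AddCommGroup M] [Module ℤ_[p] M]
    [AddCommGroup M'] [Module ℤ_[p] M'] [Module.Free ℤ_[p] M] [Module.Finite ℤ_[p] M]
    [Module.Free ℤ_[p] M'] [Module.Finite ℤ_[p] M'] (Q : QuadraticForm ℤ_[p] M)
    (Q' : QuadraticForm ℤ_[p] M') (d : ℤ_[p]ˣ), DiscIs Q (d : ℤ_[p]) → DiscIs Q' (d : ℤ_[p]) →
    finrank ℤ_[p] M = n → finrank ℤ_[p] M' = n → Nonempty (Q.IsometryEquiv Q') := by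
  have h2 : IsUnit (2 : ℤ_[p]) := by
    rw [isUnit_iff_toZMod, map_ofNat]
    intro h0
    have h3 : ((2 : ℕ) : ZMod p) = 0 := by exact_mod_cast h0
    rw [ZMod.natCast_eq_zero_iff] at h3
    exact hp2 ((Nat.prime_dvd_prime_iff_eq hp.out Nat.prime_two).1 h3)
  induction n with
  | zero =>
    intro M M' _ _ _ _ _ _ _ _ Q Q' d _ _ hn hn'
    exact equiv_zero Q Q' hn hn'
  | succ n ih =>
    intro M M' _ _ _ _ _ _ _ _ Q Q' d hd hd' hn hn'
    rcases Nat.eq_zero_or_pos n with h0 | h0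
    · subst h0
      obtain ⟨x, hx⟩ := exists_unit_val Q d hd (by omega)
      obtain ⟨x', hx'⟩ := exists_unit_val Q' d hd' (by omega)
      obtain ⟨N, ⟨e⟩⟩ := split1 Q x (h2.mul hx)
      obtain ⟨N', ⟨e'⟩⟩ := split1 Q' x' (h2.mul hx')
      have hN := finrank_split1 N e.toLinearEquiv
      have hN' := finrank_split1 N' e'.toLinearEquiv
      obtain ⟨f⟩ := equiv_zero (Q.comp N.subtype) (Q'.comp N'.subtype) (by omega) (by omega)
      obtain ⟨u, hu⟩ := (hd.congr e.symm).unique ((disc_Li (Q x)).prod (disc_zero _ (by omega)))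
      obtain ⟨u', hu'⟩ := (hd'.congr e'.symm).unique
        ((disc_Li (Q' x')).prod (disc_zero _ (by omega)))
      rw [mul_one] at hu hu'
      have h3 : Q x * (u : ℤ_[p]) ^ 2 = Q' x' * (u' : ℤ_[p]) ^ 2 := by
        apply mul_left_cancel₀ h2.ne_zero
        rw [← mul_assoc, ← mul_assoc, ← hu, ← hu']
      let w : ℤ_[p]ˣ := u * u'⁻¹
      have h4 : ((u'⁻¹ : ℤ_[p]ˣ) : ℤ_[p]) * u' = 1 := Units.inv_mul _
      have h5 : Q x * (w : ℤ_[p]) ^ 2 = Q' x' := by
        rw [Units.val_mul]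
        linear_combination ((u'⁻¹ : ℤ_[p]ˣ) : ℤ_[p]) ^ 2 * h3 +
          Q' x' * (((u'⁻¹ : ℤ_[p]ˣ) : ℤ_[p]) * u' + 1) * h4
      have e1 : (Li (Q' x')).IsometryEquiv (Li (Q x)) :=
        ⟨LinearEquiv.smulOfUnit w, fun m => by
          change Li (Q x) ((w : ℤ_[p]) * m) = _
          rw [Li_apply, Li_apply, ← h5]
          ring⟩
      exact ⟨(e.symm.trans ((e1.symm).prod f)).trans e'⟩
    · obtain ⟨N, ⟨e⟩, hN⟩ := contains_one hp2 Q d hd (by omega) h2
      obtain ⟨N', ⟨e'⟩, hN'⟩ := contains_one hp2 Q' d hd' (by omega) h2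
      obtain ⟨u2, hu2⟩ := h2
      have hL : DiscIs (Li (1 : ℤ_[p])) (u2 : ℤ_[p]) := by
        rw [hu2]
        have := disc_Li (1 : ℤ_[p])
        rwa [mul_one] at this
      have h8 := hd.congr e.symm
      have h8' := hd'.congr e'.symm
      have hdN := h8.cancel hL
      have hdN' := h8'.cancel hL
      rw [← Units.val_mul] at hdN hdN'
      obtain ⟨f⟩ := ih N N' _ _ _ hdN hdN' (by omega) (by omega)
      exact ⟨(e.symm.trans (QuadraticMap.IsometryEquiv.prod
        (QuadraticMap.IsometryEquiv.refl (Li (1 : ℤ_[p]))) f)).trans e'⟩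

end odd

section final

variable {R : Type} [CommRing R] {ι : Type} [Fintype ι] [DecidableEq ι]

/-- `x ↦ (x, x)` -/
def Qf (R : Type) [CommRing R] (B : Matrix ι ι ℤ) : QuadraticForm R (ι → R) :=
  LinearMap.BilinMap.toQuadraticMap (LinearMap.mk₂ R (fun x y : ι → R => bf B x y)
    (fun x y z => bf_add_left B x y z) (fun c x z => bf_smul_left B c x z)
    (fun x y z => bf_add_right B y z x) (fun c x z => bf_smul_right B c z x))

lemma Qf_apply (B : Matrix ι ι ℤ) (x : ι → R) : Qf R B x = bf B x x := rfl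

lemma polar_Qf (B : Matrix ι ι ℤ) (hB : B.IsSymm) (x y : ι → R) :
    polar (Qf R B) x y = 2 * bf B x y := by
  rw [polar, Qf_apply, Qf_apply, Qf_apply, bf_add_left, bf_add_right, bf_add_right,
    bf_comm hB y x]
  ring

lemma bf_single (B : Matrix ι ι ℤ) (i j : ι) :
    bf B (Pi.single i (1 : R)) (Pi.single j (1 : R)) = (B i j : R) := by
  unfold bf
  rw [Finset.sum_eq_single i, Finset.sum_eq_single j]
  · simp
  · intro k _ hk
    simp [Pi.single_apply, hk]
  · intro h; exact absurd (Finset.mem_univ _) h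
  · intro k _ hk
    apply Finset.sum_eq_zero
    intro l _
    simp [Pi.single_apply, hk]
  · intro h; exact absurd (Finset.mem_univ _) h

end final

theorem gOdd : Pool.Agent.Run7.h352.RL.JobGOdd := by
  intro p hp hp2 ι κ _ _ _ _ hcard B C hB hC hdB hdC
  have h2 : IsUnit (2 : ℤ_[p]) := by
    rw [isUnit_iff_toZMod, map_ofNat]
    intro h0
    have h3 : ((2 : ℕ) : ZMod p) = 0 := by exact_mod_cast h0
    rw [ZMod.natCast_eq_zero_iff] at h3
    exact hp2 ((Nat.prime_dvd_prime_iff_eq hp.out Nat.prime_two).1 h3)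
  have hdisc : ∀ (ι : Type) [Fintype ι] [DecidableEq ι] (B : Matrix ι ι ℤ), B.IsSymm →
      B.det = 4 → DiscIs (Qf ℤ_[p] B) ((2 : ℤ_[p]) ^ (Fintype.card ι + 2)) := by
    intro ι _ _ B hB hdB
    refine ⟨ι, inferInstance, inferInstance, Pi.basisFun _ ι, 1, ?_⟩
    have h4 : LinearMap.BilinForm.toMatrix (Pi.basisFun ℤ_[p] ι) (polarBilin (Qf ℤ_[p] B)) =
        (2 : ℤ_[p]) • (Int.castRingHom ℤ_[p]).mapMatrix B := by
      ext i j
      rw [LinearMap.BilinForm.toMatrix_apply, polarBilin_apply_apply, polar_Qf B hB,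
        Pi.basisFun_apply, Pi.basisFun_apply, bf_single]
      rfl
    rw [h4, Matrix.det_smul, ← RingHom.map_det, hdB]
    simp only [Units.val_one, one_pow, mul_one, pow_add]
    norm_num
  obtain ⟨d, hd⟩ := h2.pow (Fintype.card ι + 2)
  have h1 := hdisc ι B hB hdB
  have h3 := hdisc κ C hC hdC
  rw [← hcard, ← hd] at h3
  rw [← hd] at h1
  obtain ⟨e⟩ := main_odd hp2 (Fintype.card ι) (ι → ℤ_[p]) (κ → ℤ_[p]) (Qf ℤ_[p] B)
    (Qf ℤ_[p] C) d h1 h3 (Module.finrank_fintype_fun_eq_card _)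
    (by rw [Module.finrank_fintype_fun_eq_card, hcard])
  refine ⟨e.toLinearEquiv, fun x y => ?_⟩
  apply mul_left_cancel₀ h2.ne_zero
  rw [← polar_Qf C hC, ← polar_Qf B hB]
  change polar (Qf ℤ_[p] C) (e x) (e y) = _
  rw [polar, polar, ← map_add, e.map_app, e.map_app, e.map_app]

end Pool.Agent.Run7.h892.RL
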