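import Pool.Agent.Run7.h352.RL.Stm

set_option autoImplicit false
set_option linter.unusedSimpArgs false
set_option linter.unusedVariables false
set_option linter.unusedSectionVars false

/-! Quadratic forms over local principal ideal domains: splitting and discriminants. -/

namespace Pool.Agent.Run7.h892.RL

open QuadraticMap Module

section disc

variable {R : Type} [CommRing R] {M M₁ M₂ : Type} [AddCommGroup M] [Module R M]
  [AddCommGroup M₁] [Module R M₁] [AddCommGroup M₂] [Module R M₂]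

/-- the Gram determinant is `d` up to unit squares -/
def DiscIs (Q : QuadraticForm R M) (d : R) : Prop :=
  ∃ (ι : Type) (_ : Fintype ι) (_ : DecidableEq ι) (b : Basis ι R M) (u : Rˣ),
    (LinearMap.BilinForm.toMatrix b (polarBilin Q)).det = d * (u : R) ^ 2

lemma DiscIs.of_basis {ι : Type} [Fintype ι] [DecidableEq ι] (Q : QuadraticForm R M)
    (b : Basis ι R M) : DiscIs Q (LinearMap.BilinForm.toMatrix b (polarBilin Q)).det :=
  ⟨ι, inferInstance, inferInstance, b, 1, by simp⟩

lemma DiscIs.exists [Module.Free R M] [Module.Finite R M] (Q : QuadraticForm R M) :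
    ∃ d, DiscIs Q d := by
  classical
  obtain ⟨n, ⟨b⟩⟩ : ∃ n, Nonempty (Basis (Fin n) R M) := by
    by_cases h : Nontrivial R
    · exact ⟨_, ⟨Module.finBasis R M⟩⟩
    · rw [not_nontrivial_iff_subsingleton] at h
      have : Subsingleton M := Module.subsingleton R M
      exact ⟨0, ⟨Basis.empty M⟩⟩
  exact ⟨_, DiscIs.of_basis Q b⟩

lemma DiscIs.unique [Nontrivial R] {Q : QuadraticForm R M} {d d' : R} (h : DiscIs Q d)
    (h' : DiscIs Q d') : ∃ u : Rˣ, d = d' * (u : R) ^ 2 := by
  classical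
  obtain ⟨ι, _, _, b, u, hu⟩ := h
  obtain ⟨ι', _, _, b', u', hu'⟩ := h'
  let e := b.indexEquiv b'
  let c := b'.reindex e.symm
  have h1 : (LinearMap.BilinForm.toMatrix c (polarBilin Q)).det =
      (LinearMap.BilinForm.toMatrix b' (polarBilin Q)).det := by
    have : LinearMap.BilinForm.toMatrix c (polarBilin Q) =
        (LinearMap.BilinForm.toMatrix b' (polarBilin Q)).submatrix e e := by
      ext i j
      simp [LinearMap.BilinForm.toMatrix_apply, c]
    rw [this, Matrix.det_submatrix_equiv_self]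
  have h2 := LinearMap.BilinForm.toMatrix_mul_basis_toMatrix b c (polarBilin Q)
  have h3 : (b.toMatrix c).det * (c.toMatrix b).det = 1 := by
    rw [← Matrix.det_mul, Basis.toMatrix_mul_toMatrix_flip, Matrix.det_one]
  let P : Rˣ := ⟨(b.toMatrix c).det, (c.toMatrix b).det, h3, by rw [mul_comm]; exact h3⟩
  have h4 : (P : R) ^ 2 * (d * (u : R) ^ 2) = d' * (u' : R) ^ 2 := by
    rw [← hu, ← hu', ← h1, ← h2, Matrix.det_mul, Matrix.det_mul, Matrix.det_transpose]
    change (b.toMatrix c).det ^ 2 * _ = _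
    ring
  refine ⟨u' * (P * u)⁻¹, ?_⟩
  have h5 : d * ((P * u : Rˣ) : R) ^ 2 = d' * (u' : R) ^ 2 := by
    rw [← h4, Units.val_mul]; ring
  calc d = d * ((P * u : Rˣ) : R) ^ 2 * (((P * u)⁻¹ : Rˣ) : R) ^ 2 := by
        rw [mul_assoc, ← mul_pow, Units.mul_inv, one_pow, mul_one]
    _ = _ := by rw [h5, Units.val_mul]; ring

lemma DiscIs.congr {Q : QuadraticForm R M} {Q₁ : QuadraticForm R M₁} (e : Q.IsometryEquiv Q₁)
    {d : R} (h : DiscIs Q d) : DiscIs Q₁ d := by
  obtain ⟨ι, _, _, b, u, hu⟩ := h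
  refine ⟨ι, inferInstance, inferInstance, b.map e.toLinearEquiv, u, ?_⟩
  rw [← hu]
  congr 1
  ext i j
  rw [LinearMap.BilinForm.toMatrix_apply, LinearMap.BilinForm.toMatrix_apply]
  have : ∀ x y, polar Q₁ (e x) (e y) = polar Q x y := by
    intro x y
    rw [polar, polar, ← map_add, e.map_app, e.map_app, e.map_app]
  exact this _ _

lemma DiscIs.prod {Q₁ : QuadraticForm R M₁} {Q₂ : QuadraticForm R M₂} {d₁ d₂ : R}
    (h₁ : DiscIs Q₁ d₁) (h₂ : DiscIs Q₂ d₂) : DiscIs (Q₁.prod Q₂) (d₁ * d₂) := by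
  obtain ⟨ι, _, _, b, u, hu⟩ := h₁
  obtain ⟨ι', _, _, b', u', hu'⟩ := h₂
  refine ⟨ι ⊕ ι', inferInstance, inferInstance, b.prod b', u * u', ?_⟩
  have : LinearMap.BilinForm.toMatrix (b.prod b') (polarBilin (Q₁.prod Q₂)) =
      Matrix.fromBlocks (LinearMap.BilinForm.toMatrix b (polarBilin Q₁)) 0 0
        (LinearMap.BilinForm.toMatrix b' (polarBilin Q₂)) := by
    ext i j
    rw [LinearMap.BilinForm.toMatrix_apply]
    rcases i with i | i <;> rcases j with j | j <;>
      simp [LinearMap.BilinForm.toMatrix_apply]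
  rw [this, Matrix.det_fromBlocks_zero₂₁, hu, hu', Units.val_mul]
  ring

lemma DiscIs.mul_sq {Q : QuadraticForm R M} {d d' : R} (v : Rˣ) (h : DiscIs Q d)
    (hv : d = d' * (v : R) ^ 2) : DiscIs Q d' := by
  obtain ⟨ι, _, _, b, u, hu⟩ := h
  exact ⟨ι, inferInstance, inferInstance, b, v * u, by rw [hu, hv, Units.val_mul]; ring⟩

lemma DiscIs.cancel [Nontrivial R] [Module.Free R M₂] [Module.Finite R M₂]
    {Q₁ : QuadraticForm R M₁} {Q₂ : QuadraticForm R M₂} {d : R} {d₁ : Rˣ}
    (h : DiscIs (Q₁.prod Q₂) d) (h₁ : DiscIs Q₁ (d₁ : R)) : DiscIs Q₂ (d * d₁) := by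
  obtain ⟨g, hg⟩ := DiscIs.exists Q₂
  obtain ⟨u, hu⟩ := (h₁.prod hg).unique h
  refine hg.mul_sq (u * d₁⁻¹) ?_
  have h3 : (d₁ : R) * ((d₁⁻¹ : Rˣ) : R) = 1 := Units.mul_inv _
  calc g = (((d₁⁻¹ : Rˣ) : R) * d₁) * g := by rw [Units.inv_mul, one_mul]
    _ = ((d₁⁻¹ : Rˣ) : R) * (d * (u : R) ^ 2) := by rw [mul_assoc, hu]
    _ = (d₁ * ((d₁⁻¹ : Rˣ) : R)) * (((d₁⁻¹ : Rˣ) : R) * (d * (u : R) ^ 2)) := by
        rw [h3, one_mul]
    _ = _ := by rw [Units.val_mul]; ring

end disc

section forms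

variable {R : Type} [CommRing R]

/-- the form `a x² + b x y + c y²` -/
def Pl (a b c : R) : QuadraticForm R (R × R) :=
  LinearMap.BilinMap.toQuadraticMap
    (LinearMap.mk₂ R (fun x y : R × R => a * x.1 * y.1 + b * x.1 * y.2 + c * x.2 * y.2)
    (by intros; simp only [Prod.fst_add, Prod.snd_add]; ring)
    (by intros; simp only [Prod.smul_fst, Prod.smul_snd, smul_eq_mul]; ring)
    (by intros; simp only [Prod.fst_add, Prod.snd_add]; ring)
    (by intros; simp only [Prod.smul_fst, Prod.smul_snd, smul_eq_mul]; ring))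

lemma Pl_apply (a b c : R) (x : R × R) :
    Pl a b c x = a * x.1 ^ 2 + b * x.1 * x.2 + c * x.2 ^ 2 := by
  change a * x.1 * x.1 + b * x.1 * x.2 + c * x.2 * x.2 = _
  ring

lemma polar_Pl (a b c : R) (x y : R × R) :
    polar (Pl a b c) x y = 2 * a * x.1 * y.1 + b * (x.1 * y.2 + x.2 * y.1) +
      2 * c * x.2 * y.2 := by
  rw [polar, Pl_apply, Pl_apply, Pl_apply]
  simp only [Prod.fst_add, Prod.snd_add]
  ring

/-- the form `a x²` -/
def Li (a : R) : QuadraticForm R R :=
  LinearMap.BilinMap.toQuadraticMap (LinearMap.mk₂ R (fun x y : R => a * x * y)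
    (by intros; ring)
    (by intros; simp only [smul_eq_mul]; ring)
    (by intros; ring)
    (by intros; simp only [smul_eq_mul]; ring))

lemma Li_apply (a : R) (x : R) : Li a x = a * x ^ 2 := by
  change a * x * x = _
  ring

lemma polar_Li (a : R) (x y : R) : polar (Li a) x y = 2 * a * x * y := by
  rw [polar, Li_apply, Li_apply, Li_apply]
  ring

lemma disc_Pl (a b c : R) : DiscIs (Pl a b c) (4 * a * c - b ^ 2) := by
  refine ⟨Fin 2, inferInstance, inferInstance, Basis.finTwoProd R, 1, ?_⟩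
  rw [Matrix.det_fin_two]
  simp only [LinearMap.BilinForm.toMatrix_apply, polarBilin_apply_apply, polar_Pl,
    Basis.finTwoProd_zero, Basis.finTwoProd_one]
  simp only [Units.val_one]
  ring

lemma disc_Li (a : R) : DiscIs (Li a) (2 * a) := by
  refine ⟨Unit, inferInstance, inferInstance, Basis.singleton Unit R, 1, ?_⟩
  rw [Matrix.det_unique]
  simp only [LinearMap.BilinForm.toMatrix_apply, polarBilin_apply_apply, polar_Li,
    Basis.singleton_apply]
  simp only [Units.val_one]
  ring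

/-- linear maps of the plane -/
lemma exists_lin2 (α β γ δ : R) (h : IsUnit (α * δ - β * γ)) :
    ∃ L : (R × R) ≃ₗ[R] (R × R), ∀ x, L x = (α * x.1 + β * x.2, γ * x.1 + δ * x.2) := by
  obtain ⟨D, hD⟩ := h
  have h1 : (D : R) * ((D⁻¹ : Rˣ) : R) = 1 := Units.mul_inv D
  refine ⟨{ toFun := fun x => (α * x.1 + β * x.2, γ * x.1 + δ * x.2)
            map_add' := ?_
            map_smul' := ?_
            invFun := fun x => (((D⁻¹ : Rˣ) : R) * (δ * x.1 - β * x.2),
              ((D⁻¹ : Rˣ) : R) * (α * x.2 - γ * x.1))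
            left_inv := ?_
            right_inv := ?_ }, fun x => rfl⟩
  · intro x y
    ext <;> simp only [Prod.fst_add, Prod.snd_add] <;> ring
  · intro c x
    ext <;> simp only [Prod.smul_fst, Prod.smul_snd, smul_eq_mul, RingHom.id_apply] <;> ring
  · intro x
    ext
    · change ((D⁻¹ : Rˣ) : R) * (δ * (α * x.1 + β * x.2) - β * (γ * x.1 + δ * x.2)) = x.1
      linear_combination (-(((D⁻¹ : Rˣ) : R) * x.1)) * hD + x.1 * h1
    · change ((D⁻¹ : Rˣ) : R) * (α * (γ * x.1 + δ * x.2) - γ * (α * x.1 + β * x.2)) = x.2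
      linear_combination (-(((D⁻¹ : Rˣ) : R) * x.2)) * hD + x.2 * h1
  · intro x
    ext
    · change α * (((D⁻¹ : Rˣ) : R) * (δ * x.1 - β * x.2)) +
        β * (((D⁻¹ : Rˣ) : R) * (α * x.2 - γ * x.1)) = x.1
      linear_combination (-(((D⁻¹ : Rˣ) : R) * x.1)) * hD + x.1 * h1
    · change γ * (((D⁻¹ : Rˣ) : R) * (δ * x.1 - β * x.2)) +
        δ * (((D⁻¹ : Rˣ) : R) * (α * x.2 - γ * x.1)) = x.2
      linear_combination (-(((D⁻¹ : Rˣ) : R) * x.2)) * hD + x.2 * h1

end forms

section split

variable {R : Type} [CommRing R] {M : Type} [AddCommGroup M] [Module R M]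

lemma polar_add_left' (Q : QuadraticForm R M) (x y z : M) :
    polar Q (x + y) z = polar Q x z + polar Q y z := polar_add_left Q x y z

/-- splitting off a plane -/
theorem split2 (Q : QuadraticForm R M) (x y : M)
    (hD : IsUnit (4 * Q x * Q y - polar Q x y ^ 2)) :
    ∃ N : Submodule R M, Nonempty (((Pl (Q x) (polar Q x y) (Q y)).prod
      (Q.comp N.subtype)).IsometryEquiv Q) := by
  obtain ⟨D, hD⟩ := hD
  have hDD : (D : R) * ((D⁻¹ : Rˣ) : R) = 1 := Units.mul_inv D
  set a := Q x with ha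
  set b := polar Q x y with hb
  set c := Q y with hc
  let N : Submodule R M := LinearMap.ker ((polarBilin Q).flip x) ⊓
    LinearMap.ker ((polarBilin Q).flip y)
  have hN : ∀ z, z ∈ N ↔ polar Q z x = 0 ∧ polar Q z y = 0 := by
    intro z
    rw [Submodule.mem_inf, LinearMap.mem_ker, LinearMap.mem_ker]
    rfl
  have hxx : polar Q x x = 2 * a := by rw [polar_self, two_smul, ha, two_mul]
  have hyy : polar Q y y = 2 * c := by rw [polar_self, two_smul, hc, two_mul]
  have hyx : polar Q y x = b := by rw [polar_comm]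
  let f : (R × R) × N →ₗ[R] M :=
    { toFun := fun w => w.1.1 • x + w.1.2 • y + (w.2 : M)
      map_add' := by
        intro w w'
        simp only [Prod.fst_add, Prod.snd_add, Submodule.coe_add, add_smul]
        abel
      map_smul' := by
        intro r w
        simp only [Prod.smul_fst, Prod.smul_snd, Submodule.coe_smul, smul_add, smul_eq_mul,
          mul_smul, RingHom.id_apply] }
  have hf : ∀ s t (z : N), f ((s, t), z) = s • x + t • y + (z : M) := fun s t z => rfl
  have hpx : ∀ s t (z : N), polar Q (f ((s, t), z)) x = 2 * a * s + b * t := by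
    intro s t z
    rw [hf, polar_add_left, polar_add_left, polar_smul_left, polar_smul_left,
      ((hN z).1 z.2).1, hxx, hyx]
    simp only [smul_eq_mul]; ring
  have hpy : ∀ s t (z : N), polar Q (f ((s, t), z)) y = b * s + 2 * c * t := by
    intro s t z
    rw [hf, polar_add_left, polar_add_left, polar_smul_left, polar_smul_left,
      ((hN z).1 z.2).2, hyy, ← hb]
    simp only [smul_eq_mul]; ring
  have hinj : Function.Injective f := by
    rw [← LinearMap.ker_eq_bot, LinearMap.ker_eq_bot']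
    rintro ⟨⟨s, t⟩, z⟩ h0
    have h1 := hpx s t z
    have h2 := hpy s t z
    rw [h0] at h1 h2
    rw [polar_zero_left] at h1 h2
    have hs : s = 0 := by
      linear_combination (-s) * hDD - (((D⁻¹ : Rˣ) : R) * s) * (-hD) -
        (((D⁻¹ : Rˣ) : R) * 2 * c) * h1 + (((D⁻¹ : Rˣ) : R) * b) * h2
    have ht : t = 0 := by
      linear_combination (-t) * hDD - (((D⁻¹ : Rˣ) : R) * t) * (-hD) +
        (((D⁻¹ : Rˣ) : R) * b) * h1 - (((D⁻¹ : Rˣ) : R) * 2 * a) * h2
    have hz : z = 0 := by
      rw [hf, hs, ht, zero_smul, zero_smul, zero_add, zero_add] at h0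
      exact Subtype.ext h0
    rw [hs, ht, hz]
    rfl
  have hsurj : Function.Surjective f := by
    intro m
    let α := polar Q m x
    let β := polar Q m y
    let s := ((D⁻¹ : Rˣ) : R) * (2 * c * α - b * β)
    let t := ((D⁻¹ : Rˣ) : R) * (2 * a * β - b * α)
    have hz : m - (s • x + t • y) ∈ N := by
      rw [hN]
      constructor
      · rw [polar_sub_left, polar_add_left, polar_smul_left, polar_smul_left, hxx, hyx]
        simp only [smul_eq_mul]
        change α - (((D⁻¹ : Rˣ) : R) * (2 * c * α - b * β) * (2 * a) +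
          ((D⁻¹ : Rˣ) : R) * (2 * a * β - b * α) * b) = 0
        linear_combination (-α) * hDD + (((D⁻¹ : Rˣ) : R) * α) * hD
      · rw [polar_sub_left, polar_add_left, polar_smul_left, polar_smul_left, hyy, ← hb]
        simp only [smul_eq_mul]
        change β - (((D⁻¹ : Rˣ) : R) * (2 * c * α - b * β) * b +
          ((D⁻¹ : Rˣ) : R) * (2 * a * β - b * α) * (2 * c)) = 0
        linear_combination (-β) * hDD + (((D⁻¹ : Rˣ) : R) * β) * hD
    refine ⟨((s, t), ⟨_, hz⟩), ?_⟩
    rw [hf]
    simp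
  refine ⟨N, ⟨⟨LinearEquiv.ofBijective f ⟨hinj, hsurj⟩, ?_⟩⟩⟩
  rintro ⟨⟨s, t⟩, z⟩
  change Q (s • x + t • y + (z : M)) = Pl a b c (s, t) + Q (z : M)
  have h3 : polar Q (s • x + t • y) (z : M) = 0 := by
    rw [polar_comm, polar_add_right, polar_smul_right, polar_smul_right, ((hN z).1 z.2).1,
      ((hN z).1 z.2).2, smul_zero, smul_zero, add_zero]
  rw [QuadraticMap.map_add Q (s • x + t • y) z, h3, add_zero,
    QuadraticMap.map_add Q (s • x) (t • y), QuadraticMap.map_smul, QuadraticMap.map_smul,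
    polar_smul_left, polar_smul_right, ← ha, ← hb, ← hc, Pl_apply]
  simp only [smul_eq_mul]
  ring

/-- splitting off a line -/
theorem split1 (Q : QuadraticForm R M) (x : M) (hD : IsUnit (2 * Q x)) :
    ∃ N : Submodule R M, Nonempty (((Li (Q x)).prod (Q.comp N.subtype)).IsometryEquiv Q) := by
  obtain ⟨D, hD⟩ := hD
  have hDD : (D : R) * ((D⁻¹ : Rˣ) : R) = 1 := Units.mul_inv D
  set a := Q x with ha
  let N : Submodule R M := LinearMap.ker ((polarBilin Q).flip x)
  have hN : ∀ z, z ∈ N ↔ polar Q z x = 0 := fun z => Iff.rfl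
  have hxx : polar Q x x = 2 * a := by rw [polar_self, two_smul, ha, two_mul]
  let f : R × N →ₗ[R] M :=
    { toFun := fun w => w.1 • x + (w.2 : M)
      map_add' := by
        intro w w'
        simp only [Prod.fst_add, Prod.snd_add, Submodule.coe_add, add_smul]
        abel
      map_smul' := by
        intro r w
        simp only [Prod.smul_fst, Prod.smul_snd, Submodule.coe_smul, smul_add, smul_eq_mul,
          mul_smul, RingHom.id_apply] }
  have hf : ∀ s (z : N), f (s, z) = s • x + (z : M) := fun s z => rfl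
  have hpx : ∀ s (z : N), polar Q (f (s, z)) x = 2 * a * s := by
    intro s z
    rw [hf, polar_add_left, polar_smul_left, (hN z).1 z.2, hxx]
    simp only [smul_eq_mul]; ring
  have hinj : Function.Injective f := by
    rw [← LinearMap.ker_eq_bot, LinearMap.ker_eq_bot']
    rintro ⟨s, z⟩ h0
    have h1 := hpx s z
    rw [h0] at h1
    rw [polar_zero_left] at h1
    have hs : s = 0 := by
      linear_combination (-s) * hDD + (((D⁻¹ : Rˣ) : R) * s) * hD - (((D⁻¹ : Rˣ) : R)) * h1
    have hz : z = 0 := by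
      rw [hf, hs, zero_smul, zero_add] at h0
      exact Subtype.ext h0
    rw [hs, hz]
    rfl
  have hsurj : Function.Surjective f := by
    intro m
    let α := polar Q m x
    let s := ((D⁻¹ : Rˣ) : R) * α
    have hz : m - s • x ∈ N := by
      rw [hN]
      rw [polar_sub_left, polar_smul_left, hxx]
      simp only [smul_eq_mul]
      change α - ((D⁻¹ : Rˣ) : R) * α * (2 * a) = 0
      linear_combination (-α) * hDD + (((D⁻¹ : Rˣ) : R) * α) * hD
    refine ⟨(s, ⟨_, hz⟩), ?_⟩
    rw [hf]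
    simp
  refine ⟨N, ⟨⟨LinearEquiv.ofBijective f ⟨hinj, hsurj⟩, ?_⟩⟩⟩
  rintro ⟨s, z⟩
  change Q (s • x + (z : M)) = Li a s + Q (z : M)
  have h3 : polar Q (s • x) (z : M) = 0 := by
    rw [polar_comm, polar_smul_right, (hN z).1 z.2, smul_zero]
  rw [QuadraticMap.map_add Q (s • x) z, h3, add_zero, QuadraticMap.map_smul, ← ha, Li_apply]
  simp only [smul_eq_mul]
  ring

end split

end Pool.Agent.Run7.h892.RL
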